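import Pool.Agent.Helper86.AN.Stmts

set_option autoImplicit false

/-!
# MP_4042d8_co (Ando): module CRIT, the counting criterion
-/

namespace Pool.Agent.Helper71.AN

open Pool.Agent.Helper86.AN Finset

variable {V : Type} [Fintype V] [DecidableEq V]

theorem crit_back (s : Equiv.Perm V) (x : V) (a b : ℕ) (h : a ≤ b) :
    ((s⁻¹) ^ a) ((s ^ b) x) = (s ^ (b - a)) x := by
  have h1 : s ^ b = s ^ a * s ^ (b - a) := by
    rw [← pow_add, Nat.add_sub_cancel' h]
  rw [h1, Equiv.Perm.mul_apply, inv_pow]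
  simp

theorem crit_fwd (s : Equiv.Perm V) (x : V) (a b : ℕ) (h : a ≤ b) :
    (s ^ a) (((s⁻¹) ^ b) x) = ((s⁻¹) ^ (b - a)) x := by
  have h1 := crit_back (s⁻¹) x a b h
  rwa [inv_inv] at h1

theorem crit_memA (s : Equiv.Perm V) (A : Finset V) (hA : Sinv s A) (n : ℕ) (v : V) :
    (s ^ n) v ∈ A ↔ v ∈ A := by
  induction n generalizing v with
  | zero => simp
  | succ n ih =>
    rw [pow_succ, Equiv.Perm.mul_apply, ih, hA v]

theorem crit_memA' (s : Equiv.Perm V) (A : Finset V) (hA : Sinv s A) (n : ℕ) (v : V) :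
    ((s⁻¹) ^ n) v ∈ A ↔ v ∈ A := by
  rw [← crit_memA s A hA n (((s⁻¹) ^ n) v), crit_fwd s v n n le_rfl]
  simp

/-- run length from `x` on -/
noncomputable def fl (s : Equiv.Perm V) (c : V → Bool) (x : V) : ℕ :=
  sInf {i | c ((s ^ i) x) ≠ c x}

/-- steps back to the run start -/
noncomputable def gl (s : Equiv.Perm V) (c : V → Bool) (x : V) : ℕ :=
  sInf {j | c (((s⁻¹) ^ (j + 1)) x) ≠ c x}

theorem fl_mem (s : Equiv.Perm V) (c : V → Bool) (x : V) (h : ∃ i : ℕ, c ((s ^ i) x) ≠ c x) :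
    c ((s ^ (fl s c x)) x) ≠ c x :=
  Nat.sInf_mem (s := {i | c ((s ^ i) x) ≠ c x}) h

theorem fl_lt (s : Equiv.Perm V) (c : V → Bool) (x : V) (i : ℕ) (hi : i < fl s c x) :
    c ((s ^ i) x) = c x := by
  by_contra hc
  exact Nat.notMem_of_lt_sInf hi hc

theorem fl_eq (s : Equiv.Perm V) (c : V → Bool) (x : V) (k : ℕ)
    (h1 : ∀ i < k, c ((s ^ i) x) = c x) (h2 : c ((s ^ k) x) ≠ c x) : fl s c x = k := by
  apply le_antisymm
  · exact Nat.sInf_le (s := {i | c ((s ^ i) x) ≠ c x}) h2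
  · by_contra hlt
    push_neg at hlt
    exact fl_mem s c x ⟨k, h2⟩ (h1 _ hlt)

theorem gl_ex (s : Equiv.Perm V) (c : V → Bool) (x : V) (h : ∃ i : ℕ, c ((s ^ i) x) ≠ c x) :
    ∃ j : ℕ, c (((s⁻¹) ^ (j + 1)) x) ≠ c x := by
  obtain ⟨i, hi⟩ := h
  have hpos : 0 < orderOf s := orderOf_pos s
  have hle : i ≤ orderOf s * i := Nat.le_mul_of_pos_left i hpos
  have h1 : (s ^ i) x = ((s⁻¹) ^ (orderOf s * i - i)) x := by
    have h2 : ((s⁻¹) ^ (orderOf s * i - i)) ((s ^ (orderOf s * i)) x)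
        = (s ^ (orderOf s * i - (orderOf s * i - i))) x :=
      crit_back s x _ _ (Nat.sub_le _ _)
    have h3 : s ^ (orderOf s * i) = 1 := by rw [pow_mul, pow_orderOf_eq_one, one_pow]
    rw [h3, Equiv.Perm.one_apply] at h2
    rw [h2]
    have h4 : orderOf s * i - (orderOf s * i - i) = i := by omega
    rw [h4]
  rw [h1] at hi
  have hm : orderOf s * i - i ≠ 0 := by
    intro h0
    rw [h0] at hi
    simp at hi
  obtain ⟨j, hj⟩ := Nat.exists_eq_succ_of_ne_zero hm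
  refine ⟨j, ?_⟩
  rw [hj] at hi
  exact hi

theorem gl_mem (s : Equiv.Perm V) (c : V → Bool) (x : V) (h : ∃ i : ℕ, c ((s ^ i) x) ≠ c x) :
    c (((s⁻¹) ^ (gl s c x + 1)) x) ≠ c x :=
  Nat.sInf_mem (s := {j | c (((s⁻¹) ^ (j + 1)) x) ≠ c x}) (gl_ex s c x h)

theorem gl_le (s : Equiv.Perm V) (c : V → Bool) (x : V) (i : ℕ) (hi : i ≤ gl s c x) :
    c (((s⁻¹) ^ i) x) = c x := by
  cases i with
  | zero => simp
  | succ i =>
    by_contra hc
    exact Nat.notMem_of_lt_sInf (s := {j | c (((s⁻¹) ^ (j + 1)) x) ≠ c x})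
      (Nat.lt_of_succ_le hi) hc

/-- position in the run -/
theorem gl_eq (s : Equiv.Perm V) (c : V → Bool) (x : V) (hx : c (s⁻¹ x) ≠ c x) (j : ℕ)
    (hj : ∀ i ≤ j, c ((s ^ i) x) = c x) : gl s c ((s ^ j) x) = j := by
  apply le_antisymm
  · apply Nat.sInf_le
    show c (((s⁻¹) ^ (j + 1)) ((s ^ j) x)) ≠ c ((s ^ j) x)
    rw [pow_succ', Equiv.Perm.mul_apply, crit_back s x j j le_rfl, hj j le_rfl]
    simpa using hx
  · by_contra hlt
    push_neg at hlt
    have hne : ∃ i : ℕ, c (((s⁻¹) ^ (i + 1)) ((s ^ j) x)) ≠ c ((s ^ j) x) := by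
      refine ⟨j, ?_⟩
      rw [pow_succ', Equiv.Perm.mul_apply, crit_back s x j j le_rfl, hj j le_rfl]
      simpa using hx
    have h1 : c (((s⁻¹) ^ (gl s c ((s ^ j) x) + 1)) ((s ^ j) x)) ≠ c ((s ^ j) x) :=
      Nat.sInf_mem (s := {i | c (((s⁻¹) ^ (i + 1)) ((s ^ j) x)) ≠ c ((s ^ j) x)}) hne
    rw [crit_back s x _ _ (Nat.succ_le_of_lt hlt), hj j le_rfl] at h1
    exact h1 (hj _ (Nat.sub_le _ _))

/-- starts of `b`-runs of length `k` -/
def St (s : Equiv.Perm V) (A : Finset V) (c : V → Bool) (b : Bool) (k : ℕ) : Finset V :=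
  A.filter (fun v => (∀ i ∈ range k, c ((s ^ i) v) = b) ∧ c ((s ^ k) v) ≠ b ∧ c (s⁻¹ v) ≠ b)

/-- starts of `b`-runs of length at least `k` -/
def Tt (s : Equiv.Perm V) (A : Finset V) (c : V → Bool) (b : Bool) (k : ℕ) : Finset V :=
  A.filter (fun v => (∀ i ∈ range k, c ((s ^ i) v) = b) ∧ c (s⁻¹ v) ≠ b)

theorem card_T (s : Equiv.Perm V) (A : Finset V) (c : V → Bool) (hA : Sinv s A) (b : Bool)
    (k : ℕ) : cnt s A c b k = (Tt s A c b k).card + cnt s A c b (k + 1) := by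
  have h1 : (A.filter (fun v => (∀ i ∈ range k, c ((s ^ i) v) = b) ∧ c (s⁻¹ v) = b)).card
      = cnt s A c b (k + 1) := by
    unfold cnt
    apply Finset.card_bij (fun v _ => s⁻¹ v)
    · intro v hv
      rw [mem_filter] at hv ⊢
      refine ⟨?_, ?_⟩
      · have := (crit_memA' s A hA 1 v).2 hv.1
        simpa using this
      · intro i hi
        cases i with
        | zero => simpa using hv.2.2
        | succ i =>
          have hs1 : s (s⁻¹ v) = v := by simp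
          rw [pow_succ, Equiv.Perm.mul_apply, hs1]
          apply hv.2.1
          rw [mem_range] at hi ⊢
          omega
    · intro v _ w _ h
      exact (s⁻¹).injective h
    · intro w hw
      rw [mem_filter] at hw
      refine ⟨s w, ?_, by simp⟩
      rw [mem_filter]
      refine ⟨(hA w).2 hw.1, ?_, ?_⟩
      · intro i hi
        have h2 := hw.2 (i + 1) (by rw [mem_range] at hi ⊢; omega)
        rw [pow_succ, Equiv.Perm.mul_apply] at h2
        exact h2
      · have h2 := hw.2 0 (by rw [mem_range]; omega)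
        simpa using h2
  rw [← h1]
  unfold cnt Tt
  rw [← Finset.card_union_of_disjoint]
  · apply congrArg
    ext v
    simp only [mem_union, mem_filter]
    tauto
  · rw [Finset.disjoint_left]
    intro v hv hv'
    rw [mem_filter] at hv hv'
    exact hv.2.2 hv'.2.2

theorem card_S (s : Equiv.Perm V) (A : Finset V) (c : V → Bool) (b : Bool)
    (k : ℕ) : (Tt s A c b k).card = (St s A c b k).card + (Tt s A c b (k + 1)).card := by
  unfold St Tt
  rw [← Finset.card_union_of_disjoint]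
  · apply congrArg
    ext v
    simp only [mem_union, mem_filter, mem_range]
    constructor
    · rintro ⟨hv, h1, h2⟩
      by_cases h3 : c ((s ^ k) v) = b
      · right
        refine ⟨hv, ?_, h2⟩
        intro i hi
        rcases Nat.lt_succ_iff_lt_or_eq.1 hi with h | h
        · exact h1 i h
        · rw [h]; exact h3
      · left
        exact ⟨hv, h1, h3, h2⟩
    · rintro (⟨hv, h1, _, h2⟩ | ⟨hv, h1, h2⟩)
      · exact ⟨hv, h1, h2⟩
      · exact ⟨hv, fun i hi => h1 i (by omega), h2⟩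
  · rw [Finset.disjoint_left]
    intro v hv hv'
    rw [mem_filter] at hv hv'
    exact hv.2.2.1 (hv'.2.1 k (by rw [mem_range]; omega))

/-- swapping two disjoint sets of equal size -/
theorem exists_swap (P Q : Finset V) (hd : Disjoint P Q) (hc : P.card = Q.card) :
    ∃ ψ : V → V, (∀ x ∈ P, ψ x ∈ Q ∧ ψ (ψ x) = x) ∧ (∀ x ∈ Q, ψ x ∈ P ∧ ψ (ψ x) = x) := by
  classical
  let e : {x // x ∈ P} ≃ {x // x ∈ Q} := Finset.equivOfCardEq hc
  have hPQ : ∀ x, x ∈ P → x ∉ Q := fun x hx => Finset.disjoint_left.1 hd hx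
  have hQP : ∀ x, x ∈ Q → x ∉ P := fun x hx => Finset.disjoint_right.1 hd hx
  let ψ : V → V := fun x => if h : x ∈ P then (e ⟨x, h⟩ : V) else
    if h : x ∈ Q then (e.symm ⟨x, h⟩ : V) else x
  have h1 : ∀ x (h : x ∈ P), ψ x = (e ⟨x, h⟩ : V) := by
    intro x h
    simp only [ψ, dif_pos h]
  have h2 : ∀ x (h : x ∈ Q), ψ x = (e.symm ⟨x, h⟩ : V) := by
    intro x h
    simp only [ψ, dif_neg (hQP x h), dif_pos h]
  refine ⟨ψ, ?_, ?_⟩
  · intro x hx
    rw [h1 x hx]
    refine ⟨(e ⟨x, hx⟩).2, ?_⟩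
    rw [h2 _ (e ⟨x, hx⟩).2]
    simp
  · intro x hx
    rw [h2 x hx]
    refine ⟨(e.symm ⟨x, hx⟩).2, ?_⟩
    rw [h1 _ (e.symm ⟨x, hx⟩).2]
    simp

theorem st_CRIT : ST_CRIT := by
  intro V _ _ s A c hA hex hcnt
  -- equal numbers of starts
  have hS : ∀ k, 1 ≤ k → (St s A c true k).card = (St s A c false k).card := by
    intro k hk
    have a1 := card_T s A c hA true k
    have a2 := card_T s A c hA false k
    have a3 := card_T s A c hA true (k + 1)
    have a4 := card_T s A c hA false (k + 1)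
    have a5 := card_S s A c true k
    have a6 := card_S s A c false k
    have b1 := hcnt k hk
    have b2 := hcnt (k + 1) (by omega)
    have b3 := hcnt (k + 1 + 1) (by omega)
    omega
  have hdis : ∀ k, 1 ≤ k → Disjoint (St s A c true k) (St s A c false k) := by
    intro k hk
    rw [Finset.disjoint_left]
    intro v hv hv'
    unfold St at hv hv'
    rw [mem_filter] at hv hv'
    have h1 := hv.2.1 0 (by rw [mem_range]; omega)
    have h2 := hv'.2.1 0 (by rw [mem_range]; omega)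
    rw [h1] at h2
    exact absurd h2 (by decide)
  have hsw : ∀ k, ∃ ψ : V → V, 1 ≤ k → (∀ x ∈ St s A c true k, ψ x ∈ St s A c false k ∧ ψ (ψ x) = x)
      ∧ (∀ x ∈ St s A c false k, ψ x ∈ St s A c true k ∧ ψ (ψ x) = x) := by
    intro k
    by_cases hk : 1 ≤ k
    · obtain ⟨ψ, h⟩ := exists_swap (St s A c true k) (St s A c false k) (hdis k hk) (hS k hk)
      exact ⟨ψ, fun _ => h⟩
    · exact ⟨id, fun h => absurd h hk⟩
  choose Ψ hΨ using hsw
  -- membership in `St`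
  have hmemS : ∀ x ∈ A, c (s⁻¹ x) ≠ c x → x ∈ St s A c (c x) (fl s c x) := by
    intro x hx hs
    unfold St
    rw [mem_filter]
    exact ⟨hx, fun i hi => fl_lt s c x i (mem_range.1 hi), fl_mem s c x (hex x hx), hs⟩
  have hfpos : ∀ x ∈ A, 1 ≤ fl s c x := by
    intro x hx
    by_contra h0
    have h1 : fl s c x = 0 := by omega
    have h2 := fl_mem s c x (hex x hx)
    rw [h1] at h2
    simp at h2
  have hSmem : ∀ b k x, 1 ≤ k → x ∈ St s A c b k →
      x ∈ A ∧ c x = b ∧ c (s⁻¹ x) ≠ c x ∧ fl s c x = k := by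
    intro b k x hk hx
    unfold St at hx
    rw [mem_filter] at hx
    have h1 : c x = b := by
      have := hx.2.1 0 (by rw [mem_range]; omega)
      simpa using this
    refine ⟨hx.1, h1, ?_, ?_⟩
    · rw [h1]; exact hx.2.2.2
    · apply fl_eq
      · intro i hi
        rw [h1]
        exact hx.2.1 i (mem_range.2 hi)
      · rw [h1]; exact hx.2.2.1
  -- the involution on the starts
  let ψ : V → V := fun x => Ψ (fl s c x) x
  have hψ : ∀ x ∈ A, c (s⁻¹ x) ≠ c x → ψ x ∈ A ∧ c (s⁻¹ (ψ x)) ≠ c (ψ x) ∧ c (ψ x) = !(c x) ∧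
      fl s c (ψ x) = fl s c x ∧ ψ (ψ x) = x := by
    intro x hx hs
    have h1 := hmemS x hx hs
    have hk := hfpos x hx
    have h2 := hΨ (fl s c x) hk
    cases hb : c x with
    | true =>
      rw [hb] at h1
      obtain ⟨h3, h4⟩ := h2.1 x h1
      obtain ⟨h5, h6, h7, h8⟩ := hSmem false _ _ hk h3
      refine ⟨h5, h7, by rw [show ψ x = Ψ (fl s c x) x from rfl, h6]; rfl, h8, ?_⟩
      show Ψ (fl s c (Ψ (fl s c x) x)) (Ψ (fl s c x) x) = x
      rw [h8]
      exact h4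
    | false =>
      rw [hb] at h1
      obtain ⟨h3, h4⟩ := h2.2 x h1
      obtain ⟨h5, h6, h7, h8⟩ := hSmem true _ _ hk h3
      refine ⟨h5, h7, by rw [show ψ x = Ψ (fl s c x) x from rfl, h6]; rfl, h8, ?_⟩
      show Ψ (fl s c (Ψ (fl s c x) x)) (Ψ (fl s c x) x) = x
      rw [h8]
      exact h4
  -- the map
  let φ : V → V := fun v => (s ^ (gl s c v)) (ψ (((s⁻¹) ^ (gl s c v)) v))
  have hφ : ∀ x ∈ A, c (s⁻¹ x) ≠ c x → ∀ j < fl s c x, φ ((s ^ j) x) = (s ^ j) (ψ x) := by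
    intro x _ hs j hj
    have h1 : gl s c ((s ^ j) x) = j :=
      gl_eq s c x hs j (fun i hi => fl_lt s c x i (lt_of_le_of_lt hi hj))
    show (s ^ (gl s c ((s ^ j) x))) (ψ (((s⁻¹) ^ (gl s c ((s ^ j) x))) ((s ^ j) x)))
      = (s ^ j) (ψ x)
    rw [h1, crit_back s x j j le_rfl]
    simp
  have hrep : ∀ v ∈ A, ∃ x ∈ A, c (s⁻¹ x) ≠ c x ∧ ∃ j < fl s c x, v = (s ^ j) x ∧ c v = c x := by
    intro v hv
    have hx1 : ((s⁻¹) ^ (gl s c v)) v ∈ A := (crit_memA' s A hA _ v).2 hv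
    have hcx : c (((s⁻¹) ^ (gl s c v)) v) = c v := gl_le s c v _ le_rfl
    have hvx : (s ^ (gl s c v)) (((s⁻¹) ^ (gl s c v)) v) = v := by
      rw [crit_fwd s v _ _ le_rfl]; simp
    refine ⟨((s⁻¹) ^ (gl s c v)) v, hx1, ?_, gl s c v, ?_, hvx.symm, hcx.symm⟩
    · have h1 := gl_mem s c v (hex v hv)
      rw [pow_succ', Equiv.Perm.mul_apply] at h1
      rw [hcx]
      exact h1
    · by_contra hlt
      push_neg at hlt
      have h1 := fl_mem s c _ (hex _ hx1)
      rw [crit_fwd s v _ _ hlt, hcx] at h1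
      exact h1 (gl_le s c v _ (Nat.sub_le _ _))
  -- one direction of the isomorphism
  have hb : ∀ v ∈ A, φ v ∈ A ∧ φ (φ v) = v ∧ c (φ v) = !(c v) := by
    intro v hv
    obtain ⟨x, hx, hs, j, hj, hvx, hcv⟩ := hrep v hv
    obtain ⟨p1, p2, p3, p4, p5⟩ := hψ x hx hs
    have h1 : φ v = (s ^ j) (ψ x) := by rw [hvx]; exact hφ x hx hs j hj
    refine ⟨?_, ?_, ?_⟩
    · rw [h1]; exact (crit_memA s A hA j _).2 p1
    · rw [h1, hφ (ψ x) p1 p2 j (by rw [p4]; exact hj), p5, ← hvx]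
    · rw [h1, fl_lt s c (ψ x) j (by rw [p4]; exact hj), p3, hcv]
  have hd : ∀ v ∈ A, ∀ w ∈ A, c v = c w → s v = w → s (φ v) = φ w := by
    intro v hv w _ hvw hsw
    obtain ⟨x, hx, hs, j, hj, hvx, hcv⟩ := hrep v hv
    have hw : w = (s ^ (j + 1)) x := by
      rw [← hsw, hvx, pow_succ', Equiv.Perm.mul_apply]
    have hj1 : j + 1 < fl s c x := by
      rcases Nat.lt_or_ge (j + 1) (fl s c x) with h | h
      · exact h
      · exfalso
        have h2 : fl s c x = j + 1 := by omega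
        have h3 := fl_mem s c x (hex x hx)
        rw [h2, ← hw, ← hvw, hcv] at h3
        exact h3 rfl
    rw [hw, hφ x hx hs (j + 1) hj1, hvx, hφ x hx hs j hj, pow_succ', Equiv.Perm.mul_apply]
  refine ⟨φ, fun v hv => ?_⟩
  obtain ⟨q1, q2, q3⟩ := hb v hv
  refine ⟨q1, q2, q3, fun w hw hvw => ⟨hd v hv w hw hvw, fun h => ?_⟩⟩
  obtain ⟨r1, r2, r3⟩ := hb w hw
  have h1 := hd (φ v) q1 (φ w) r1 (by rw [q3, r3, hvw]) h
  rw [q2, r2] at h1
  exact h1

end Pool.Agent.Helper71.AN
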